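import Pool.Agent.H.MP_442888_an.C

open MeasureTheory Set Filter Topology Pool.Agent.H.MP_442888_an
open scoped ContDiff

namespace Pool.Agent.Results.MP_442888_an.No

theorem result : ∃ X : ℝ × ℝ × ℝ, X.1 ≠ 0 ∧ IsProbabilityMeasure mu ∧
    (∀ m : Measure (Quotient lat), IsProbabilityMeasure m →
      ((∀ t, MeasurePreserving (flow X t) m m) ↔ m = mu)) ∧
    ∃ α : Quotient lat → ℝ, ContDiff ℝ ∞ (α ∘ Quotient.mk lat) ∧ (∀ x, 0 < α x) ∧
      (¬∃ (c : ℝ) (u : Quotient lat → ℝ), AEMeasurable u mu ∧ ∀ t, ∀ᵐ x ∂mu,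
        u (flow X t x) - u x = ∫ s in (0 : ℝ)..t, (α (flow X s x) - c)) ∧
      IsProbabilityMeasure (nu α) ∧
      ∃ ψ : ℝ → Quotient lat → Quotient lat,
        (∀ t x, ∃ τ, ∫ s in (0 : ℝ)..τ, α (flow X s x) = t ∧ ψ t x = flow X τ x) ∧
        ∃ A B : Set (Quotient lat), MeasurableSet A ∧ MeasurableSet B ∧
          ¬Tendsto (fun t : ℝ => (∫⁻ s in Ioc 0 t, ENNReal.ofReal
            |(nu α).real (ψ s '' A ∩ B) - (nu α).real A * (nu α).real B|) / ENNReal.ofReal t)
            atTop (𝓝 0) ∧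
          ¬Tendsto (fun t : ℝ => (nu α).real (ψ t '' A ∩ B)) atTop
            (𝓝 ((nu α).real A * (nu α).real B)) := by
  obtain ⟨d⟩ := exD
  have hpos : ∀ x, 0 < d.α x := fun x => by linarith [(d.α_bd x).1]
  have hm : Measurable fun x => ENNReal.ofReal (d.α x) := d.α_meas.ennreal_ofReal
  have hac : mu ≪ mu.withDensity fun x => ENNReal.ofReal (d.α x) :=
    withDensity_absolutelyContinuous' hm.aemeasurable (.of_forall fun x => by simpa using hpos x)
  have h0 : ∫⁻ x, ENNReal.ofReal (d.α x) ∂mu ≠ 0 := fun h => by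
    have : mu univ = 0 := hac (by simpa using h)
    simp at this
  have h1 : ∫⁻ x, ENNReal.ofReal (d.α x) ∂mu ≠ ⊤ :=
    ne_top_of_le_ne_top (by simp) (lintegral_mono (g := fun _ => ENNReal.ofReal (d.θ + 1 / 2))
      fun x => ENNReal.ofReal_le_ofReal (d.α_bd x).2)
  have hP : IsProbabilityMeasure (nu d.α) := ⟨by simp [nu, ENNReal.inv_mul_cancel h0 h1]⟩
  have hA : 0 < (nu d.α).real d.A := by
    refine ENNReal.toReal_pos (fun h => ?_) (measure_ne_top _ _)
    simp only [nu, Measure.smul_apply, smul_eq_mul, mul_eq_zero, ENNReal.inv_eq_zero, h1,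
      false_or] at h
    exact d.A_pos (hac h)
  choose τ hτ using d.F_surj
  have hemp : ∀ (n : ℕ) (s : ℝ), s ∈ Ioo (n + 1 / 4 : ℝ) (n + 3 / 4) →
      (fun x => flow (1, d.θ, 0) (τ x s) x) '' d.A ∩ d.A = ∅ := by
    intro n s hs
    refine eq_empty_of_forall_notMem ?_
    rintro _ ⟨⟨x, hx, rfl⟩, hy⟩
    have := d.A_ret hx hy
    rw [hτ, UnitAddCircle.norm_eq, abs_le] at this
    have a1 : (n : ℝ) < round s := by linarith [hs.1, this.2]
    have a2 : (round s : ℝ) < n + 1 := by linarith [hs.2, this.1]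
    have b1 : (n : ℤ) < round s := by exact_mod_cast a1
    have b2 : round s < (n : ℤ) + 1 := by exact_mod_cast a2
    omega
  refine ⟨(1, d.θ, 0), one_ne_zero, inferInstance,
    fun m _ => ⟨uniq d.irr, fun h => h ▸ mu_inv _⟩, d.α, d.α_smooth, hpos, d.nontriv, hP,
    fun t x => flow (1, d.θ, 0) (τ x t) x, fun t x => ⟨τ x t, hτ x t, rfl⟩, d.A, d.A, d.A_meas,
    d.A_meas, fun h => ?_, fun h => ?_⟩
  · set c := (nu d.α).real d.A * (nu d.α).real d.A
    have hc : 0 < c := mul_pos hA hA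
    set f := fun s => ENNReal.ofReal
      |(nu d.α).real ((fun x => flow (1, d.θ, 0) (τ x s) x) '' d.A ∩ d.A) - c|
    have low : ∀ n : ℕ, ENNReal.ofReal (c / 2 * n) ≤ ∫⁻ s in Ioc (0 : ℝ) n, f s := by
      intro n
      induction n with
      | zero => simp
      | succ n ih =>
        push_cast
        rw [← Ioc_union_Ioc_eq_Ioc n.cast_nonneg (le_add_of_nonneg_right zero_le_one),
          lintegral_union measurableSet_Ioc (Ioc_disjoint_Ioc_of_le le_rfl), mul_add,
          ENNReal.ofReal_add (by positivity) (by positivity)]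
        refine add_le_add ih (le_trans ?_ (lintegral_mono_set
          (s := Ioo (n + 1 / 4 : ℝ) (n + 3 / 4)) fun s hs =>
            ⟨by linarith [hs.1], by linarith [hs.2]⟩))
        rw [setLIntegral_congr_fun measurableSet_Ioo (g := fun _ => ENNReal.ofReal c)
          fun s hs => by simp [f, hemp n s hs, abs_of_pos hc], setLIntegral_const, Real.volume_Ioo,
          ← ENNReal.ofReal_mul hc.le]
        exact ENNReal.ofReal_le_ofReal (by linarith)
    have h2 := (h.comp tendsto_natCast_atTop_atTop).eventually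
      (gt_mem_nhds (show (0 : ENNReal) < ENNReal.ofReal (c / 2) by simpa using hc))
    obtain ⟨n, hn, hn1⟩ := (h2.and (eventually_gt_atTop 0)).exists
    refine hn.not_ge ?_
    show _ ≤ _ / _
    rw [ENNReal.le_div_iff_mul_le (.inl (by simpa using hn1.ne')) (.inl (by simp)),
      ← ENNReal.ofReal_mul (by positivity)]
    exact low n
  · have h2 := h.comp (tendsto_atTop_add_const_right _ (1 / 2) tendsto_natCast_atTop_atTop)
    have h3 : ((fun t : ℝ => (nu d.α).real ((fun x => flow (1, d.θ, 0) (τ x t) x) '' d.A ∩ d.A)) ∘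
        fun n : ℕ => (n : ℝ) + 1 / 2) = fun _ => 0 := funext fun n => by
      simp only [Function.comp]
      rw [hemp n _ ⟨by linarith, by linarith⟩, measureReal_empty]
    rw [h3] at h2
    exact (mul_pos hA hA).ne (tendsto_nhds_unique tendsto_const_nhds h2)

end Pool.Agent.Results.MP_442888_an.No
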